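import Pool.Agent.H65.NU.Pair

set_option autoImplicit false

/-!
# Polynomial space relative to an oracle, by alternating quantifiers

`PSPACE` relative to an oracle (with queries of polynomial length) is described by alternating
polynomial time: two players choose bits in turn, and a relation that is decidable in polynomial
time evaluates the play.
-/

namespace Pool.Agent.H43.EW

open Pool.Agent.H88.RO Pool.Agent.H88.RO.Tr Pool.Agent.H65.TS Pool.Agent.H65.NU

variable {O : List Bool → Bool}

/-- `n` alternating pairs of quantifiers over bits in front of `f`; the list `w` contains the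
bits chosen so far (the last one first), so `Alt f n []` says
`∃ b₁ ∀ c₁ ∃ b₂ ∀ c₂ … ∃ bₙ ∀ cₙ, f [cₙ, bₙ, …, c₁, b₁]`. -/
def Alt (f : List Bool → Prop) : ℕ → List Bool → Prop
  | 0, w => f w
  | n + 1, w => ∃ b, ∀ c, Alt f n (c :: b :: w)

/-- The set `L` is in PSPACE relative to `O` (alternating polynomial time with oracle `O`). -/
def InPSPACE (O : List Bool → Bool) (L : Set (List Bool)) : Prop :=
  ∃ (R : List Bool → List Bool → Bool) (p : Polynomial ℕ), PolyTimeRel O R ∧
    ∀ x, x ∈ L ↔ Alt (fun w => R x w = true) (p.eval x.length) []

theorem Alt_congr {f g : List Bool → Prop} (n : ℕ) : ∀ w : List Bool,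
    (∀ v : List Bool, v.length = w.length + 2 * n → (f v ↔ g v)) → (Alt f n w ↔ Alt g n w) := by
  induction n with
  | zero => intro w h; exact h w (by simp)
  | succ n ih =>
    intro w h
    unfold Alt
    refine exists_congr fun b => forall_congr' fun c => ih _ fun v hv => h v ?_
    simp only [List.length_cons] at hv
    omega

/-- The statement described by the string `q` (usually `1^K 0 1^N 0 1^i 0 x`) is true relative
to `O`: the value of `N` alternating pairs of quantifiers over bits in front of machine number
`i` with clock `K` and input `x`. -/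
def Tru (O : List Bool → Bool) (q : List Bool) : Prop :=
  Alt (fun w => snd (U O (mach (zi q)) (node (enc (zx q)) (enc w)) (zK q)) ≠ leaf) (zN q) []

/-- the truth of the statement `q` depends only on the oracle up to the length of `q` -/
theorem Tru_congr {O O' : List Bool → Bool} {q : List Bool}
    (h : ∀ w : List Bool, w.length ≤ q.length → O' w = O w) : Tru O' q ↔ Tru O q := by
  have hK : ∀ w : List Bool, w.length ≤ zK q → O' w = O w := fun w hw =>
    h w (hw.trans (by have := z_le q; omega))
  unfold Tru
  simp only [U_local' _ _ _ hK]

/-- **Every set in PSPACE is given by the clocked statements of a numbered machine.** -/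
theorem exists_tru {L : Set (List Bool)} (hL : InPSPACE O L) :
    ∃ (i : ℕ) (k n : Polynomial ℕ), ∀ x,
      x ∈ L ↔ Tru O (ins (k.eval x.length) (n.eval x.length) i x) := by
  obtain ⟨R, p, hR, hL⟩ := hL
  obtain ⟨i, k, hk⟩ := exists_index_rel hR
  refine ⟨i, k.comp (Polynomial.X + 2 * p), p, fun x => ?_⟩
  rw [hL x]
  unfold Tru
  rw [zN_ins, zi_ins, zx_ins, zK_ins]
  refine Alt_congr _ _ fun v hv => ?_
  rw [hk]
  simp only [Polynomial.eval_comp, Polynomial.eval_add, Polynomial.eval_X, Polynomial.eval_mul,
    Polynomial.eval_ofNat]
  rw [hv]
  simp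

end Pool.Agent.H43.EW
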