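import Pool.Agent.H65.EW.Cls
import Pool.Agent.H43.EW.Alt

set_option autoImplicit false

/-!
# Sets decided with the help of a table that is hidden behind passwords
-/

namespace Pool.Agent.H43.EW

open Pool.Agent.H88.RO Pool.Agent.H88.RO.Tr Pool.Agent.H65.TS Pool.Agent.H65.NU
open Pool.Agent.H65.EW (InP InPPoly Cpt₂ inP_of_FP)

variable {O : List Bool → Bool}

/-- The set `L` is decidable in polynomial time relative to the oracle `O` with advice of length
`l (p n)` for the inputs of length `n`, where `p` is a polynomial. -/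
def InPAdv (O : List Bool → Bool) (l : ℕ → ℕ) (L : Set (List Bool)) : Prop :=
  ∃ (L' : Set (List Bool)) (a : ℕ → List Bool) (p : Polynomial ℕ), InP O L' ∧
    (∀ n, (a n).length = l (p.eval n)) ∧ ∀ x, x ∈ L ↔ pr (a x.length) x ∈ L'

theorem InPAdv.inPPoly {l : ℕ → ℕ} (hl : ∃ r : Polynomial ℕ, ∀ n, l n ≤ r.eval n)
    {L : Set (List Bool)} (h : InPAdv O l L) : InPPoly O L := by
  obtain ⟨L', a, p, h1, h2, h3⟩ := h
  obtain ⟨r, hr⟩ := hl
  exact ⟨L', a, h1, ⟨r.comp p, fun n => (h2 n).le.trans ((hr _).trans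
    (by rw [Polynomial.eval_comp]))⟩, h3⟩

/-- **Decision with advice**: the advice is the password. -/
theorem inPAdv_of_table {cd : List Bool → List Bool → List Bool} {cdT : Tr → Tr → Tr}
    (hcd : Cpt₂ cd cdT) {l : ℕ → ℕ} {wm : ℕ → List Bool} (hwm : ∀ n, (wm n).length = l n)
    {tr : List Bool → Prop} (hleg : ∀ q : List Bool, O (cd (wm q.length) q) = true ↔ tr q)
    {L : Set (List Bool)} {i : ℕ} {k n : Polynomial ℕ}
    (hL : ∀ x, x ∈ L ↔ tr (ins (k.eval x.length) (n.eval x.length) i x)) : InPAdv O l L := by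
  obtain ⟨Pk, hk1, hk2⟩ := exists_polyT k
  obtain ⟨Pn, hn1, hn2⟩ := exists_polyT n
  refine ⟨{z | O (cd (un1 z) (ins (k.eval (un2 z).length) (n.eval (un2 z).length) i (un2 z))) =
    true}, fun m => wm (k.eval m + n.eval m + i + m + 3),
    k + n + Polynomial.C i + Polynomial.X + 3, ?_, fun m => ?_, fun x => ?_⟩
  · have h1 : FP O (fun v => un1T v) := FP.un1T' FP.id'
    have h2 : FP O (fun v => un2T v) := FP.un2T' FP.id'
    have h3 := FP.query' (hcd.fp O _ _ h1 (FP.insT' (hk2 O _ h2) (hn2 O _ h2)
      (FP.const' (num i)) h2))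
    refine inP_of_FP h3 (fun x => ?_)
    rw [un1T_enc, un2T_enc, insT_eq, hcd.eq, dec_enc, hk1, hn1, len_num, len_num, len_num,
      len_enc]
  · rw [hwm]
    simp
  · rw [Set.mem_ofPred_eq, un1_pr, un2_pr, hL x, ← hleg, ins_length]

theorem enc_replicate (n : ℕ) : enc (List.replicate n false) = num n := by
  induction n with
  | zero => rfl
  | succ n ih => rw [List.replicate_succ, enc, ih]; rfl

/-- the data of the coding: programs for the positions of the passwords and of the codes, and
for the length of the passwords -/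
structure Cod (pw : ℕ → List Bool → List Bool) (cd : List Bool → List Bool → List Bool)
    (l : ℕ → ℕ) : Prop where
  pwc : ∃ pwT, Cpt₂ (fun q w => pw q.length w) pwT
  cdc : ∃ cdT, Cpt₂ cd cdT
  le : ∃ r : Polynomial ℕ, ∀ n, l n ≤ r.eval n
  lc : ∃ lT : Tr → Tr, (∀ v, lT v = num (l (len v))) ∧
    ∀ (O : List Bool → Bool) (F : Tr → Tr), FP O F → FP O (fun v => lT (F v))

/-- **The second level of the Boolean hierarchy.** If the truth of the statement `q` is the
answer at `cd w q` for some password `w`, respectively at `cd 0 q` if there is no password, then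
the sets given by the statements are unions of a set in NP and a set in coNP. -/
theorem union_of_table {pw : ℕ → List Bool → List Bool} {cd : List Bool → List Bool → List Bool}
    {l : ℕ → ℕ} (hC : Cod pw cd l) {tr : List Bool → Prop}
    (hB : ∀ q : List Bool, tr q ↔
      (∃ w : List Bool, w.length = l q.length ∧ O (pw q.length w) = true ∧ O (cd w q) = true) ∨
      ((∀ w : List Bool, w.length = l q.length → O (pw q.length w) = false) ∧
        O (cd (List.replicate (l q.length) false) q) = true))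
    {L : Set (List Bool)} {i : ℕ} {k n : Polynomial ℕ}
    (hL : ∀ x, x ∈ L ↔ tr (ins (k.eval x.length) (n.eval x.length) i x)) :
    ∃ A B : Set (List Bool), InNP O A ∧ InNP O Bᶜ ∧ L = A ∪ B := by
  obtain ⟨⟨pwT, hpw⟩, ⟨cdT, hcd⟩, ⟨r, hle⟩, lT, hl1, hl2⟩ := hC
  obtain ⟨Pk, hk1, hk2⟩ := exists_polyT k
  obtain ⟨Pn, hn1, hn2⟩ := exists_polyT n
  -- the statement belonging to `x`
  let Q : List Bool → List Bool := fun x => ins (k.eval x.length) (n.eval x.length) i x
  let QT : Tr → Tr := fun v => insT (Pk v) (Pn v) (num i) v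
  have hQ : ∀ x, QT (enc x) = enc (Q x) := by
    intro x
    simp only [QT, Q]
    rw [insT_eq, hk1, hn1, len_num, len_num, len_num, len_enc]
  have hQl : ∀ x, lT (QT (enc x)) = num (l (Q x).length) := by
    intro x
    rw [hQ, hl1, len_enc]
  have hlen : ∀ x, l (Q x).length ≤
      (r.comp (k + n + Polynomial.C i + Polynomial.X + 3)).eval x.length := by
    intro x
    refine (hle _).trans ?_
    simp only [Q]
    rw [ins_length]
    simp
  have f1 : FP O (fun v => fst v) := FP.fst' FP.id'
  have f2 : FP O (fun v => snd v) := FP.snd' FP.id'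
  have fQ : FP O (fun v => QT (fst v)) := FP.insT' (hk2 _ _ f1) (hn2 _ _ f1) (FP.const' _) f1
  have fl : FP O (fun v => lT (QT (fst v))) := hl2 _ _ fQ
  have fp : FP O (fun v => bit (O (dec (pwT (QT (fst v)) (snd v))))) :=
    FP.query' (hpw.fp _ _ _ fQ f2)
  -- the first set
  let RA : Tr → Tr := fun v => cs (dropU (lT (QT (fst v))) (snd v))
    (cs (dropU (snd v) (lT (QT (fst v))))
      (cs (bit (O (dec (pwT (QT (fst v)) (snd v))))) leaf
        (bit (O (dec (cdT (snd v) (QT (fst v))))))) leaf) leaf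
  have hRA : FP O RA := FP.cs' (FP.dropU' fl f2) (FP.cs' (FP.dropU' f2 fl)
    (FP.cs' fp FP.leaf' (FP.query' (hcd.fp _ _ _ f2 fQ))) FP.leaf') FP.leaf'
  -- the complement of the second set
  let RB : Tr → Tr := fun v => cs (bit (O (dec (cdT (lT (QT (fst v))) (QT (fst v)))))) tt
    (cs (dropU (lT (QT (fst v))) (snd v)) (cs (dropU (snd v) (lT (QT (fst v))))
      (bit (O (dec (pwT (QT (fst v)) (snd v))))) leaf) leaf)
  have hRB : FP O RB := FP.cs' (FP.query' (hcd.fp _ _ _ fl fQ)) (FP.const' _)
    (FP.cs' (FP.dropU' fl f2) (FP.cs' (FP.dropU' f2 fl) fp FP.leaf') FP.leaf')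
  have key : ∀ (x w : List Bool) (T : Tr), cs (dropU (lT (QT (enc x))) (enc w))
      (cs (dropU (enc w) (lT (QT (enc x)))) T leaf) leaf ≠ leaf ↔
      w.length = l (Q x).length ∧ T ≠ leaf := by
    intro x w T
    rw [hQl]
    by_cases h1 : w.length ≤ l (Q x).length
    · rw [cs_pos _ _ (by rw [dropU_eq_leaf, len_enc, len_num]; exact h1)]
      by_cases h2 : l (Q x).length ≤ w.length
      · rw [cs_pos _ _ (by rw [dropU_eq_leaf, len_enc, len_num]; exact h2)]
        have : w.length = l (Q x).length := by omega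
        simp [this]
      · rw [cs_neg _ _ (by rw [ne_eq, dropU_eq_leaf, len_enc, len_num]; exact h2)]
        simp only [ne_eq, not_true_eq_false, false_iff, not_and]
        intro h; omega
    · rw [cs_neg _ _ (by rw [ne_eq, dropU_eq_leaf, len_enc, len_num]; exact h1)]
      simp only [ne_eq, not_true_eq_false, false_iff, not_and]
      intro h; omega
  have hcs : ∀ (b : Bool) (T : Tr), cs (bit b) leaf T ≠ leaf ↔ b = true ∧ T ≠ leaf := by
    intro b T
    cases b <;> simp [bit_true, bit_false]
  have hcs' : ∀ (b : Bool) (T : Tr), cs (bit b) tt T ≠ leaf ↔ b = false ∨ T ≠ leaf := by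
    intro b T
    cases b <;> simp [bit_true, bit_false]
  have hA' : ∀ x w, RA (node (enc x) (enc w)) ≠ leaf ↔ w.length = l (Q x).length ∧
      O (pw (Q x).length w) = true ∧ O (cd w (Q x)) = true := by
    intro x w
    simp only [RA, fst_node, snd_node]
    rw [key, hcs, hQ, hpw.eq, hcd.eq, dec_enc, dec_enc, Pool.Agent.H65.TS.bit_ne_leaf]
  have hB' : ∀ x w, RB (node (enc x) (enc w)) ≠ leaf ↔
      O (cd (List.replicate (l (Q x).length) false) (Q x)) = false ∨
        (w.length = l (Q x).length ∧ O (pw (Q x).length w) = true) := by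
    intro x w
    simp only [RB, fst_node, snd_node]
    rw [hcs', key, hQl, hQ, hpw.eq, ← enc_replicate, hcd.eq, dec_enc, dec_enc, Pool.Agent.H65.TS.bit_ne_leaf]
  refine ⟨{x | ∃ w : List Bool, w.length = l (Q x).length ∧ O (pw (Q x).length w) = true ∧
      O (cd w (Q x)) = true}, {x | (∀ w : List Bool, w.length = l (Q x).length →
      O (pw (Q x).length w) = false) ∧
      O (cd (List.replicate (l (Q x).length) false) (Q x)) = true}, ?_, ?_, ?_⟩
  · refine ⟨fun x w => decide (RA (node (enc x) (enc w)) ≠ leaf),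
      r.comp (k + n + Polynomial.C i + Polynomial.X + 3), polyTimeRel_of_FP hRA
      (fun x w => by rw [decide_eq_true_eq]), fun x => ?_⟩
    simp only [decide_eq_true_eq, hA', Set.mem_ofPred_eq]
    constructor
    · rintro ⟨w, hw, h⟩
      exact ⟨w, by rw [hw]; exact hlen x, hw, h⟩
    · rintro ⟨w, _, h⟩
      exact ⟨w, h⟩
  · refine ⟨fun x w => decide (RB (node (enc x) (enc w)) ≠ leaf),
      r.comp (k + n + Polynomial.C i + Polynomial.X + 3), polyTimeRel_of_FP hRB
      (fun x w => by rw [decide_eq_true_eq]), fun x => ?_⟩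
    simp only [decide_eq_true_eq, hB', Set.mem_compl_iff, Set.mem_ofPred_eq, not_and_or,
      Bool.not_eq_true]
    constructor
    · rintro (h | h)
      · push Not at h
        obtain ⟨w, hw, h⟩ := h
        exact ⟨w, by rw [hw]; exact hlen x, Or.inr ⟨hw, by simpa using h⟩⟩
      · exact ⟨[], by simp, Or.inl h⟩
    · rintro ⟨w, _, h | ⟨hw, h⟩⟩
      · exact Or.inr h
      · left
        intro hall
        rw [hall w hw] at h
        exact absurd h (by simp)
  · ext x
    rw [hL x, hB]
    rfl

end Pool.Agent.H43.EW
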