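import Pool.Agent.H65.EW.Gen
import Pool.Agent.H43.EW.Cls

set_option autoImplicit false

/-!
# The classes of the sets in PSPACE relative to a legal oracle
-/

namespace Pool.Agent.H43.EW

open Pool.Agent.H88.RO Pool.Agent.H88.RO.Tr Pool.Agent.H65.TS Pool.Agent.H65.NU
open Pool.Agent.H65.EW (InP InPPoly Cpt₂ inP_of_FP)

variable {O : List Bool → Bool} {l : ℕ → ℕ}

/-- the coding functions are computed by programs -/
theorem cod (hle : ∃ r : Polynomial ℕ, ∀ n, l n ≤ r.eval n) (hl : ∃ lT : Tr → Tr, (∀ v, lT v = num (l (len v))) ∧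
    ∀ (O : List Bool → Bool) (F : Tr → Tr), FP O F → FP O (fun v => lT (F v))) :
    Cod Pool.Agent.H65.EW.pw Pool.Agent.H65.EW.cd l := by
  have e1 : ∀ w : List Bool, node leaf (enc w) = enc (false :: w) := fun _ => rfl
  have e2 : ∀ w : List Bool, node tt (enc w) = enc (true :: w) := fun _ => rfl
  refine ⟨⟨fun q w => node leaf (node leaf (onesPre q (node leaf w))), ⟨fun q w => ?_,
    fun O G H hG hH => ?_⟩⟩, ⟨fun w q => node leaf (node tt (prT w q)), ⟨fun w q => ?_,
    fun O G H hG hH => ?_⟩⟩, hle, hl⟩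
  · rw [e1, onesPre_enc, e1, e1, len_enc]
    rfl
  · exact FP.node' FP.leaf' (FP.node' FP.leaf' (FP.onesPre' hG (FP.node' FP.leaf' hH)))
  · rw [prT_enc, e2, e1]
    rfl
  · exact FP.node' FP.leaf' (FP.node' (FP.const' _) (FP.prT' hG hH))

/-- **The classes.** -/
theorem classes_of_table (hle : ∃ r : Polynomial ℕ, ∀ n, l n ≤ r.eval n)
    (hl : ∃ lT : Tr → Tr, (∀ v, lT v = num (l (len v))) ∧
      ∀ (O : List Bool → Bool) (F : Tr → Tr), FP O F → FP O (fun v => lT (F v)))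
    {wm : ℕ → List Bool} (hwm : ∀ n, (wm n).length = l n)
    (hwm' : ∀ n, O (Pool.Agent.H65.EW.pw n (wm n)) = true ∨
      ((∀ w : List Bool, w.length = l n → O (Pool.Agent.H65.EW.pw n w) = false) ∧
        wm n = List.replicate (l n) false))
    (hleg : ∀ q : List Bool, O (Pool.Agent.H65.EW.cd (wm q.length) q) = true ↔ Tru O q)
    (huse : ∀ q w : List Bool, w.length = l q.length →
      O (Pool.Agent.H65.EW.pw q.length w) = true →
      (O (Pool.Agent.H65.EW.cd w q) = true ↔ Tru O q))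
    {L : Set (List Bool)} (hL : InPSPACE O L) :
    InPAdv O l L ∧ ∃ A B : Set (List Bool), InNP O A ∧ InNP O Bᶜ ∧ L = A ∪ B := by
  have hC := cod hle hl
  obtain ⟨i, k, n, hi⟩ := exists_tru hL
  obtain ⟨cdT, hcd⟩ := hC.cdc
  refine ⟨inPAdv_of_table hcd hwm hleg hi, union_of_table hC (fun q => ?_) hi⟩
  constructor
  · intro h
    rcases hwm' q.length with h1 | ⟨h1, h2⟩
    · exact Or.inl ⟨wm q.length, hwm _, h1, (hleg q).mpr h⟩
    · refine Or.inr ⟨h1, ?_⟩
      rw [← h2]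
      exact (hleg q).mpr h
  · rintro (⟨w, h1, h2, h3⟩ | ⟨h1, h2⟩)
    · exact (huse q w h1 h2).mp h3
    · rcases hwm' q.length with h3 | ⟨_, h3⟩
      · rw [h1 _ (hwm _)] at h3
        exact absurd h3 (by simp)
      · rw [← h3] at h2
        exact (hleg q).mp h2

/-- **The classes relative to a legal oracle.** -/
theorem classes_of_legal (hle : ∃ r : Polynomial ℕ, ∀ n, l n ≤ r.eval n)
    (hl : ∃ lT : Tr → Tr, (∀ v, lT v = num (l (len v))) ∧
      ∀ (O : List Bool → Bool) (F : Tr → Tr), FP O F → FP O (fun v => lT (F v)))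
    (hO : Pool.Agent.H65.EW.Legal l Tru O) {L : Set (List Bool)} (hL : InPSPACE O L) :
    InPAdv O l L ∧ ∃ A B : Set (List Bool), InNP O A ∧ InNP O Bᶜ ∧ L = A ∪ B := by
  choose wm hwm using fun n => Pool.Agent.H65.EW.exists_pass (l := l) O n
  refine classes_of_table hle hl (wm := wm) (fun n => (hwm n).1) (fun n => ?_)
    (fun q => hO q _ (hwm _)) (fun q w h1 h2 => hO q w ⟨h1, Or.inl h2⟩) hL
  rcases (hwm n).2 with h | ⟨h1, h2⟩
  · exact Or.inl h
  · exact Or.inr ⟨h2, h1⟩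

theorem loc_Tru : Pool.Agent.H65.EW.Loc Tru := fun _ _ _ h => Tru_congr h

end Pool.Agent.H43.EW
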