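import Pool.Agent.H43.EW.Cls2

set_option autoImplicit false

/-!
# One bit of advice
-/

namespace Pool.Agent.H43.EW

open Pool.Agent.H88.RO Pool.Agent.H88.RO.Tr Pool.Agent.H65.TS Pool.Agent.H65.NU
open Pool.Agent.H65.EW (InP InPPoly Cpt₂ inP_of_FP)

variable {O : List Bool → Bool}

/-- The set `L` is in NP relative to `O` with one bit of advice depending on the length of the
input. -/
def InNPOne (O : List Bool → Bool) (L : Set (List Bool)) : Prop :=
  ∃ (L' : Set (List Bool)) (a : ℕ → Bool), InNP O L' ∧ ∀ x, x ∈ L ↔ a x.length :: x ∈ L'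

/-- **One bit of advice**: the bit says whether there is a password. -/
theorem one_of_table {pw : ℕ → List Bool → List Bool} {cd : List Bool → List Bool → List Bool}
    {l : ℕ → ℕ} (hC : Cod pw cd l) {tr : List Bool → Prop}
    (h1 : ∀ q w : List Bool, w.length = l q.length → O (pw q.length w) = true →
      (O (cd w q) = true ↔ tr q))
    (h0 : ∀ q : List Bool, (∀ w : List Bool, w.length = l q.length →
      O (pw q.length w) = false) → (O (cd (List.replicate (l q.length) false) q) = true ↔ tr q))
    {L : Set (List Bool)} {i : ℕ} {k n : Polynomial ℕ}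
    (hL : ∀ x, x ∈ L ↔ tr (ins (k.eval x.length) (n.eval x.length) i x)) :
    InNPOne O L := by
  classical
  obtain ⟨⟨pwT, hpw⟩, ⟨cdT, hcd⟩, ⟨r, hle⟩, lT, hl1, hl2⟩ := hC
  obtain ⟨Pk, hk1, hk2⟩ := exists_polyT k
  obtain ⟨Pn, hn1, hn2⟩ := exists_polyT n
  -- the statement belonging to `x`
  let Q : List Bool → List Bool := fun x => ins (k.eval x.length) (n.eval x.length) i x
  let QT : Tr → Tr := fun v => insT (Pk v) (Pn v) (num i) v
  have hQ : ∀ x, QT (enc x) = enc (Q x) := by
    intro x
    simp only [QT, Q]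
    rw [insT_eq, hk1, hn1, len_num, len_num, len_num, len_enc]
  have hQlen : ∀ x, (Q x).length = k.eval x.length + n.eval x.length + i + x.length + 3 := by
    intro x
    simp only [Q]
    rw [ins_length]
  have hQl : ∀ x, lT (QT (enc x)) = num (l (Q x).length) := by
    intro x
    rw [hQ, hl1, len_enc]
  have hlen : ∀ x, l (Q x).length ≤
      (r.comp (k + n + Polynomial.C i + Polynomial.X + 3)).eval x.length := by
    intro x
    refine (hle _).trans ?_
    rw [hQlen]
    simp
  have f1 : FP O (fun v => snd (fst v)) := FP.snd' (FP.fst' FP.id')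
  have f2 : FP O (fun v => snd v) := FP.snd' FP.id'
  have fQ : FP O (fun v => QT (snd (fst v))) :=
    FP.insT' (hk2 _ _ f1) (hn2 _ _ f1) (FP.const' _) f1
  have fl : FP O (fun v => lT (QT (snd (fst v)))) := hl2 _ _ fQ
  let RA : Tr → Tr := fun v => cs (fst v) leaf (cs (fst (fst v))
    (bit (O (dec (cdT (lT (QT (snd (fst v)))) (QT (snd (fst v)))))))
    (cs (dropU (lT (QT (snd (fst v)))) (snd v))
      (cs (dropU (snd v) (lT (QT (snd (fst v)))))
        (cs (bit (O (dec (pwT (QT (snd (fst v))) (snd v))))) leaf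
          (bit (O (dec (cdT (snd v) (QT (snd (fst v)))))))) leaf) leaf))
  have hRA : FP O RA := FP.cs' (FP.fst' FP.id') FP.leaf' (FP.cs' (FP.fst' (FP.fst' FP.id'))
    (FP.query' (hcd.fp _ _ _ fl fQ)) (FP.cs' (FP.dropU' fl f2) (FP.cs' (FP.dropU' f2 fl)
      (FP.cs' (FP.query' (hpw.fp _ _ _ fQ f2)) FP.leaf' (FP.query' (hcd.fp _ _ _ f2 fQ)))
      FP.leaf') FP.leaf'))
  have key : ∀ (x w : List Bool) (T : Tr), cs (dropU (lT (QT (enc x))) (enc w))
      (cs (dropU (enc w) (lT (QT (enc x)))) T leaf) leaf ≠ leaf ↔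
      w.length = l (Q x).length ∧ T ≠ leaf := by
    intro x w T
    rw [hQl]
    by_cases h1 : w.length ≤ l (Q x).length
    · rw [cs_pos _ _ (by rw [dropU_eq_leaf, len_enc, len_num]; exact h1)]
      by_cases h2 : l (Q x).length ≤ w.length
      · rw [cs_pos _ _ (by rw [dropU_eq_leaf, len_enc, len_num]; exact h2)]
        have : w.length = l (Q x).length := by omega
        simp [this]
      · rw [cs_neg _ _ (by rw [ne_eq, dropU_eq_leaf, len_enc, len_num]; exact h2)]
        simp only [ne_eq, not_true_eq_false, false_iff, not_and]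
        intro h; omega
    · rw [cs_neg _ _ (by rw [ne_eq, dropU_eq_leaf, len_enc, len_num]; exact h1)]
      simp only [ne_eq, not_true_eq_false, false_iff, not_and]
      intro h; omega
  have hcs : ∀ (b : Bool) (T : Tr), cs (bit b) leaf T ≠ leaf ↔ b = true ∧ T ≠ leaf := by
    intro b T
    cases b <;> simp [bit_true, bit_false]
  have hN : ∀ w, RA (node (enc []) (enc w)) = leaf := fun w => rfl
  have hT : ∀ x w, RA (node (enc (true :: x)) (enc w)) ≠ leaf ↔ w.length = l (Q x).length ∧
      O (pw (Q x).length w) = true ∧ O (cd w (Q x)) = true := by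
    intro x w
    have e : RA (node (enc (true :: x)) (enc w)) = cs (dropU (lT (QT (enc x))) (enc w))
      (cs (dropU (enc w) (lT (QT (enc x)))) (cs (bit (O (dec (pwT (QT (enc x)) (enc w))))) leaf
          (bit (O (dec (cdT (enc w) (QT (enc x))))))) leaf) leaf := by
      simp [RA, enc, bit_true, cs_neg]
    rw [e, key, hcs, hQ, hpw.eq, hcd.eq, dec_enc, dec_enc, Pool.Agent.H65.TS.bit_ne_leaf]
  have hF : ∀ x w, RA (node (enc (false :: x)) (enc w)) ≠ leaf ↔
      O (cd (List.replicate (l (Q x).length) false) (Q x)) = true := by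
    intro x w
    have e : RA (node (enc (false :: x)) (enc w)) =
        bit (O (dec (cdT (lT (QT (enc x))) (QT (enc x))))) := by
      simp [RA, enc, bit_false, cs_neg]
    rw [e, hQl, hQ, ← enc_replicate, hcd.eq, dec_enc, Pool.Agent.H65.TS.bit_ne_leaf]
  let a : ℕ → Bool := fun m => decide (∃ w : List Bool,
    w.length = l (k.eval m + n.eval m + i + m + 3) ∧
      O (pw (k.eval m + n.eval m + i + m + 3) w) = true)
  refine ⟨{z | ∃ w : List Bool, w.length ≤
      (r.comp (k + n + Polynomial.C i + Polynomial.X + 3)).eval z.length ∧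
      RA (node (enc z) (enc w)) ≠ leaf}, a, ?_, fun x => ?_⟩
  · refine ⟨fun z w => decide (RA (node (enc z) (enc w)) ≠ leaf),
      r.comp (k + n + Polynomial.C i + Polynomial.X + 3), polyTimeRel_of_FP hRA
      (fun z w => by rw [decide_eq_true_eq]), fun z => ?_⟩
    simp only [decide_eq_true_eq, Set.mem_ofPred_eq]
  · rw [hL x, Set.mem_ofPred_eq]
    have hm := poly_mono (r.comp (k + n + Polynomial.C i + Polynomial.X + 3))
      (show x.length ≤ (a x.length :: x).length by simp)
    by_cases ha : ∃ w : List Bool, w.length = l (k.eval x.length + n.eval x.length + i +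
        x.length + 3) ∧ O (pw (k.eval x.length + n.eval x.length + i + x.length + 3) w) = true
    · have ha' : a x.length = true := by simp only [a]; exact decide_eq_true ha
      rw [ha'] at hm ⊢
      simp only [hT]
      rw [← hQlen x] at ha
      constructor
      · intro h
        obtain ⟨w, hw1, hw2⟩ := ha
        exact ⟨w, by rw [hw1]; exact (hlen x).trans hm, hw1, hw2, (h1 (Q x) w hw1 hw2).mpr h⟩
      · rintro ⟨w, _, hw1, hw2, hw3⟩
        exact (h1 (Q x) w hw1 hw2).mp hw3
    · have ha' : a x.length = false := by simp only [a]; exact decide_eq_false ha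
      rw [ha']
      simp only [hF]
      have hno : ∀ w : List Bool, w.length = l (Q x).length → O (pw (Q x).length w) = false := by
        intro w hw
        by_contra hc
        rw [← hQlen x] at ha
        exact ha ⟨w, hw, by simpa using hc⟩
      constructor
      · intro h
        exact ⟨[], by simp, (h0 (Q x) hno).mpr h⟩
      · rintro ⟨_, _, h⟩
        exact (h0 (Q x) hno).mp h

/-- **PSPACE is in NP with one bit of advice**, relative to a legal oracle. -/
theorem one_of_legal {l : ℕ → ℕ} (hle : ∃ r : Polynomial ℕ, ∀ n, l n ≤ r.eval n)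
    (hl : ∃ lT : Tr → Tr, (∀ v, lT v = num (l (len v))) ∧
      ∀ (O : List Bool → Bool) (F : Tr → Tr), FP O F → FP O (fun v => lT (F v)))
    (hO : Pool.Agent.H65.EW.Legal l Tru O) {L : Set (List Bool)} (hL : InPSPACE O L) :
    InNPOne O L := by
  obtain ⟨i, k, n, hi⟩ := exists_tru hL
  exact one_of_table (cod hle hl) (fun q w h1 h2 => hO q w ⟨h1, Or.inl h2⟩)
    (fun q h => hO q _ ⟨by simp, Or.inr ⟨rfl, h⟩⟩) hi

end Pool.Agent.H43.EW
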