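import Pool.Agent.H65.EW.Sig
import Pool.Agent.H43.EW.Alt

set_option autoImplicit false

/-!
# The class PSPACE is closed under complements and contains the second level
-/

namespace Pool.Agent.H43.EW

open Pool.Agent.H88.RO Pool.Agent.H88.RO.Tr Pool.Agent.H65.TS Pool.Agent.H65.NU
open Pool.Agent.H65.EW (Stt exists_stt)

variable {O : List Bool → Bool}

/-! ### complements -/

theorem Alt_compl {f : List Bool → Prop} (s : Bool) (n : ℕ) : ∀ v : List Bool,
    (∀ c, Alt (fun w => ¬ f (w.drop 1).dropLast) n (c :: (v ++ [s]))) ↔ ¬ Alt f n v := by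
  induction n with
  | zero =>
    intro v
    simp [Alt]
  | succ n ih =>
    intro v
    have h1 : ∀ c : Bool, Alt (fun w => ¬ f (w.drop 1).dropLast) (n + 1) (c :: (v ++ [s])) ↔
        ∃ b, ¬ Alt f n (b :: c :: v) := by
      intro c
      show (∃ b, ∀ c', Alt (fun w => ¬ f (w.drop 1).dropLast) n (c' :: b :: c :: (v ++ [s]))) ↔ _
      exact exists_congr fun b => ih (b :: c :: v)
    simp only [h1]
    show _ ↔ ¬ ∃ b, ∀ c, Alt f n (c :: b :: v)
    push Not
    rfl

/-- **PSPACE is closed under complements.** -/
theorem InPSPACE.compl {L : Set (List Bool)} (hL : InPSPACE O L) : InPSPACE O Lᶜ := by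
  obtain ⟨R, p, hR, hL⟩ := hL
  have h1 : FP O (fun v => cs (bit (R (dec (fst v)) (dec (revN (snd (revN (snd (snd v))))))))
      tt leaf) :=
    FP.cs' (FP.rel hR (FP.fst' FP.id') (FP.revN' (FP.snd' (FP.revN' (FP.snd' (FP.snd'
      FP.id')))))) (FP.const' _) FP.leaf'
  refine ⟨fun x w => !(R x (w.drop 1).dropLast), p + 1, polyTimeRel_of_FP h1 (fun x w => ?_),
    fun x => ?_⟩
  · have e1 : dec (revN (snd (revN (snd (enc w))))) = (w.drop 1).dropLast := by
      have e : ∀ w : List Bool, snd (enc w) = enc (w.drop 1) := by
        intro w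
        cases w <;> rfl
      rw [e, revN_eq, dec_enc, revN_eq, dec_enc, e, dec_enc, List.drop_one, List.drop_one,
        List.tail_reverse, List.reverse_reverse]
    rw [fst_node, snd_node, e1, dec_enc]
    cases R x (w.drop 1).dropLast <;> simp [bit_true, bit_false]
  · rw [Set.mem_compl_iff, hL x, Polynomial.eval_add, Polynomial.eval_one]
    have h2 := Alt_compl (f := fun w => R x w = true) false (p.eval x.length) []
    have h3 := Alt_compl (f := fun w => R x w = true) true (p.eval x.length) []
    show _ ↔ ∃ b, ∀ c, Alt (fun w => (!(R x (w.drop 1).dropLast)) = true) (p.eval x.length)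
      (c :: b :: [])
    have h4 : (fun w : List Bool => (!(R x (w.drop 1).dropLast)) = true) =
        fun w => ¬ R x (w.drop 1).dropLast = true := by
      funext w
      cases R x (w.drop 1).dropLast <;> simp
    rw [h4]
    constructor
    · intro h
      exact ⟨true, h3.mpr h⟩
    · rintro ⟨b, h⟩
      cases b
      · exact h2.mp h
      · exact h3.mp h

/-! ### the second level -/

/-- the choices of the player of the quantifiers `∀` -/
def ev : List Bool → List Bool
  | c :: _ :: w => c :: ev w
  | _ => []

/-- the choices of the player of the quantifiers `∃` -/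
def od : List Bool → List Bool
  | _ :: b :: w => b :: od w
  | _ => []

theorem ev_append (m : ℕ) : ∀ z w : List Bool, z.length = 2 * m → ev (z ++ w) = ev z ++ ev w := by
  induction m with
  | zero =>
    intro z w hz
    have : z = [] := List.length_eq_zero_iff.mp (by omega)
    subst this
    rfl
  | succ m ih =>
    intro z w hz
    match z, hz with
    | c :: b :: z, hz =>
      simp only [List.length_cons] at hz
      simp only [List.cons_append, ev, ih z w (by omega)]

theorem Alt_ex {P : List Bool → Prop} (n : ℕ) : ∀ w : List Bool,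
    Alt (fun v => P (od v)) n w ↔ ∃ z : List Bool, z.length = n ∧ P (z ++ od w) := by
  induction n with
  | zero =>
    intro w
    constructor
    · intro h; exact ⟨[], rfl, h⟩
    · rintro ⟨z, hz, h⟩
      have : z = [] := List.length_eq_zero_iff.mp hz
      subst this
      exact h
  | succ n ih =>
    intro w
    show (∃ b, ∀ c, Alt (fun v => P (od v)) n (c :: b :: w)) ↔ _
    simp only [ih, od]
    constructor
    · rintro ⟨b, h⟩
      obtain ⟨z, hz, h⟩ := h true
      exact ⟨z ++ [b], by simp [hz], by simpa using h⟩
    · rintro ⟨z, hz, h⟩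
      have hne : z ≠ [] := by rintro rfl; simp at hz
      refine ⟨z.getLast hne, fun _ => ⟨z.dropLast, by simp [hz], ?_⟩⟩
      have e : z.dropLast ++ z.getLast hne :: od w = z ++ od w := by
        conv_rhs => rw [← List.dropLast_append_getLast hne]
        simp
      rw [e]
      exact h

theorem Alt_all {f Q : List Bool → Prop} (m : ℕ) : ∀ w e : List Bool,
    (∀ z : List Bool, z.length = 2 * m → (f (z ++ w) ↔ Q (ev z ++ e))) →
    (Alt f m w ↔ ∀ z : List Bool, z.length = m → Q (z ++ e)) := by
  induction m with
  | zero =>
    intro w e h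
    have h1 := h [] rfl
    simp only [List.nil_append, ev] at h1
    show f w ↔ _
    rw [h1]
    constructor
    · intro h z hz
      have : z = [] := List.length_eq_zero_iff.mp hz
      subst this
      exact h
    · intro h; exact h [] rfl
  | succ m ih =>
    intro w e h
    have h1 : ∀ b c : Bool, Alt f m (c :: b :: w) ↔
        ∀ z : List Bool, z.length = m → Q (z ++ c :: e) := by
      intro b c
      refine ih _ _ (fun z hz => ?_)
      have h2 := h (z ++ [c, b]) (by simp [hz]; ring)
      rw [ev_append m z _ hz] at h2
      simpa [ev] using h2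
    show (∃ b, ∀ c, Alt f m (c :: b :: w)) ↔ _
    simp only [h1]
    constructor
    · rintro ⟨_, h3⟩ z hz
      have hne : z ≠ [] := by rintro rfl; simp at hz
      have h4 := h3 (z.getLast hne) z.dropLast (by simp [hz])
      have e1 : z.dropLast ++ z.getLast hne :: e = z ++ e := by
        conv_rhs => rw [← List.dropLast_append_getLast hne]
        simp
      rwa [e1] at h4
    · intro h3
      refine ⟨true, fun c z hz => ?_⟩
      have h4 := h3 (z ++ [c]) (by simp [hz])
      simpa using h4

theorem Alt_add {f : List Bool → Prop} (m n : ℕ) : ∀ w : List Bool,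
    Alt f (n + m) w ↔ Alt (Alt f m) n w := by
  induction n with
  | zero => intro w; rw [Nat.zero_add]; rfl
  | succ n ih =>
    intro w
    rw [show n + 1 + m = (n + m) + 1 by ring]
    exact exists_congr fun b => forall_congr' fun c => ih _

/-- one step of the selection of every second element -/
def ost (s : Tr) : Tr :=
  if fst s = leaf then s
  else node (snd (snd (fst s))) (node (fst (snd (fst s))) (snd s))

/-- one step of the selection of every second element -/
def est (s : Tr) : Tr :=
  if fst s = leaf then s
  else node (snd (snd (fst s))) (node (fst (fst s)) (snd s))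

/-- the program for `od` -/
def odT (v : Tr) : Tr := revN (snd (ost^[len v] (node v leaf)))
/-- the program for `ev` -/
def evT (v : Tr) : Tr := revN (snd (est^[len v] (node v leaf)))

theorem size_ost (s : Tr) : size (ost s) ≤ size s + 10 := by
  unfold ost
  split_ifs with h
  · omega
  · match s with
    | leaf => simp at h
    | node leaf acc => simp at h
    | node (node c leaf) acc => simp [size]; omega
    | node (node c (node b r)) acc => simp [size]; omega

theorem size_est (s : Tr) : size (est s) ≤ size s + 10 := by
  unfold est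
  split_ifs with h
  · omega
  · match s with
    | leaf => simp at h
    | node leaf acc => simp at h
    | node (node c leaf) acc => simp [size]; omega
    | node (node c (node b r)) acc => simp [size]; omega

theorem FP.odT' {F : Tr → Tr} (hF : FP O F) : FP O (fun v => odT (F v)) := by
  have hd : FP O (fun s => ost s) := by
    unfold ost
    exact FP.ite' (FP.fst' FP.id') FP.id' (FP.node' (FP.snd' (FP.snd' (FP.fst' FP.id')))
      (FP.node' (FP.fst' (FP.snd' (FP.fst' FP.id'))) (FP.snd' FP.id')))
  exact FP.revN' (FP.snd' (FP.iterate_add hd hF (FP.node' hF FP.leaf') 10 size_ost))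

theorem FP.evT' {F : Tr → Tr} (hF : FP O F) : FP O (fun v => evT (F v)) := by
  have hd : FP O (fun s => est s) := by
    unfold est
    exact FP.ite' (FP.fst' FP.id') FP.id' (FP.node' (FP.snd' (FP.snd' (FP.fst' FP.id')))
      (FP.node' (FP.fst' (FP.fst' FP.id')) (FP.snd' FP.id')))
  exact FP.revN' (FP.snd' (FP.iterate_add hd hF (FP.node' hF FP.leaf') 10 size_est))

theorem ost_iter (n : ℕ) : ∀ (m : ℕ) (w acc : List Bool), m ≤ n → w.length = 2 * m →
    ost^[n] (node (enc w) (enc acc)) = node leaf (enc ((od w).reverse ++ acc)) := by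
  induction n with
  | zero =>
    intro m w acc hm hw
    have : w = [] := List.length_eq_zero_iff.mp (by omega)
    subst this
    rfl
  | succ n ih =>
    intro m w acc hm hw
    rw [Function.iterate_succ_apply]
    match w, hw with
    | [], _ =>
      have e : ost (node (enc []) (enc acc)) = node (enc []) (enc acc) := by simp [ost, enc]
      rw [e, ih 0 [] acc (by omega) rfl]
    | c :: b :: w, hw =>
      have e : ost (node (enc (c :: b :: w)) (enc acc)) = node (enc w) (enc (b :: acc)) := by
        simp [ost, enc]
      simp only [List.length_cons] at hw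
      rw [e, ih (m - 1) w _ (by omega) (by omega)]
      simp [od]
    | [c], hw => simp at hw; omega

theorem est_iter (n : ℕ) : ∀ (m : ℕ) (w acc : List Bool), m ≤ n → w.length = 2 * m →
    est^[n] (node (enc w) (enc acc)) = node leaf (enc ((ev w).reverse ++ acc)) := by
  induction n with
  | zero =>
    intro m w acc hm hw
    have : w = [] := List.length_eq_zero_iff.mp (by omega)
    subst this
    rfl
  | succ n ih =>
    intro m w acc hm hw
    rw [Function.iterate_succ_apply]
    match w, hw with
    | [], _ =>
      have e : est (node (enc []) (enc acc)) = node (enc []) (enc acc) := by simp [est, enc]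
      rw [e, ih 0 [] acc (by omega) rfl]
    | c :: b :: w, hw =>
      have e : est (node (enc (c :: b :: w)) (enc acc)) = node (enc w) (enc (c :: acc)) := by
        simp [est, enc]
      simp only [List.length_cons] at hw
      rw [e, ih (m - 1) w _ (by omega) (by omega)]
      simp [ev]
    | [c], hw => simp at hw; omega

theorem odT_enc {w : List Bool} {m : ℕ} (hw : w.length = 2 * m) : odT (enc w) = enc (od w) := by
  have h := ost_iter w.length m w [] (by omega) hw
  have e : (leaf : Tr) = enc [] := rfl
  rw [odT, len_enc, e, h, snd_node, revN_eq, dec_enc]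
  simp

theorem evT_enc {w : List Bool} {m : ℕ} (hw : w.length = 2 * m) : evT (enc w) = enc (ev w) := by
  have h := est_iter w.length m w [] (by omega) hw
  have e : (leaf : Tr) = enc [] := rfl
  rw [evT, len_enc, e, h, snd_node, revN_eq, dec_enc]
  simp

/-- strings of length at most `N` are coded by strings of length `N + 1` -/
theorem str_iff {N : ℕ} (u : List Bool) :
    u.length ≤ N ↔ ∃ z : List Bool, z.length = N + 1 ∧ (prs z).2 = u := by
  constructor
  · intro h
    refine ⟨List.replicate (N - u.length) true ++ false :: u, by simp; omega, ?_⟩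
    rw [prs_ones]
  · rintro ⟨z, hz, rfl⟩
    unfold prs
    rcases h : parse z with _ | ⟨m, v⟩
    · simp
    · have := parse_some h
      rw [this] at hz
      simp at hz
      simp only
      omega

/-- **The second level is contained in PSPACE.** -/
theorem inPSPACE_of_sigma2 {L : Set (List Bool)} (hL : InSigma2 O L) : InPSPACE O L := by
  obtain ⟨i, k, n, hi⟩ := exists_stt hL
  obtain ⟨Pk, hk1, hk2⟩ := exists_polyT k
  obtain ⟨Pn, hn1, hn2⟩ := exists_polyT (2 * (n + 1))
  have f1 : FP O (fun v => fst v) := FP.fst' FP.id'
  have f2 : FP O (fun v => snd v) := FP.snd' FP.id'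
  have fn : FP O (fun v => Pn (fst v)) := hn2 _ _ f1
  let F : Tr → Tr := fun v => snd (U O (mach i) (node (fst v)
    (node (fst (snd (parseT (odT (dropU (Pn (fst v)) (snd v))))))
      (fst (snd (parseT (evT (tkT (Pn (fst v)) (snd v)))))))) (len (Pk (fst v))))
  have hF : FP O F := FP.snd' (FP.U' (FP.const' _) (FP.node' f1
    (FP.node' (FP.fst' (FP.snd' (FP.parseT' (FP.odT' (FP.dropU' fn f2)))))
      (FP.fst' (FP.snd' (FP.parseT' (FP.evT' (FP.tkT' fn f2))))))) (hk2 _ _ f1))
  refine ⟨fun x w => decide (F (node (enc x) (enc w)) ≠ leaf), (n + 1) + (n + 1),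
    polyTimeRel_of_FP hF (fun x w => by rw [decide_eq_true_eq]), fun x => ?_⟩
  have hN : ((n + 1) + (n + 1) : Polynomial ℕ).eval x.length =
      (n.eval x.length + 1) + (n.eval x.length + 1) := by simp
  rw [hi x, hN, Alt_add]
  set N := n.eval x.length with hNdef
  -- the second half
  have h2 : ∀ w : List Bool, w.length = 2 * (N + 1) →
      (Alt (fun w => decide (F (node (enc x) (enc w)) ≠ leaf) = true) (N + 1) w ↔
      ∀ z : List Bool, z.length = N + 1 → snd (U O (mach i) (node (enc x)
        (node (enc (prs (od w)).2) (enc (prs z).2))) (k.eval x.length)) ≠ leaf) := by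
    intro w hw
    have h3 := Alt_all (f := fun w => decide (F (node (enc x) (enc w)) ≠ leaf) = true)
      (Q := fun z => snd (U O (mach i) (node (enc x)
        (node (enc (prs (od w)).2) (enc (prs z).2))) (k.eval x.length)) ≠ leaf) (N + 1) w []
      (fun z hz => ?_)
    · simpa using h3
    · have e1 : Pn (enc x) = num (2 * (N + 1)) := by
        rw [hn1, len_enc]
        simp [hNdef]
      have e2 : dropU (num (2 * (N + 1))) (enc (z ++ w)) = enc w := by
        rw [dropU_enc, len_num, ← hz, List.drop_left]
      have e3 : tkT (num (2 * (N + 1))) (enc (z ++ w)) = enc z := by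
        rw [tkT_enc, len_num, ← hz, List.take_left]
      simp only [F, fst_node, snd_node, e1, e2, e3, odT_enc hw, evT_enc hz, snd_parseT, hk1,
        len_num, len_enc, decide_eq_true_eq, List.append_nil]
  have h4 := Alt_congr (N + 1) [] (fun w hw => h2 w (by simpa using hw))
  have h5 := Alt_ex (P := fun y => ∀ z : List Bool, z.length = N + 1 → snd (U O (mach i)
    (node (enc x) (node (enc (prs y).2) (enc (prs z).2))) (k.eval x.length)) ≠ leaf) (N + 1) []
  rw [h4, h5]
  unfold Stt
  rw [zN_ins, zi_ins, zx_ins, zK_ins]
  have hod : od [] = [] := rfl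
  constructor
  · rintro ⟨u, hu, h⟩
    obtain ⟨y, hy, rfl⟩ := (str_iff u).mp hu
    refine ⟨y, hy, fun z hz => ?_⟩
    rw [hod, List.append_nil]
    exact h _ ((str_iff _).mpr ⟨z, hz, rfl⟩)
  · rintro ⟨y, hy, h⟩
    rw [hod, List.append_nil] at h
    refine ⟨(prs y).2, (str_iff _).mpr ⟨y, hy, rfl⟩, fun v hv => ?_⟩
    obtain ⟨z, hz, rfl⟩ := (str_iff v).mp hv
    exact h z hz

end Pool.Agent.H43.EW
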