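import Pool.Agent.H43.EW.UTLim

set_option autoImplicit false

/-! # No complete problem, for all the notions of reduction -/

namespace Pool.Agent.H43.EW

open Pool.Agent.H88.RO Tr
open Pool.Agent.H65.EW (Loc Legal TuringWithin TuringRed turingWithin_of_turingRed
  turingWithin_of_reducesWithin)
open Pool.Agent.H45.EW (Orc Small small_poly within_of_reduces)

variable {ℓ : ℕ → ℕ} {tr : Orc → List Bool → Prop}

theorem small_lin {κ : ℕ} {t : ℕ → ℕ} (h : Small ℓ κ t) :
    Small ℓ κ (fun n => 40 * t n + 100) := by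
  intro P
  obtain ⟨b0, hb⟩ := h (P.comp (40 * Polynomial.X + 100))
  refine ⟨b0, fun b m h1 h2 => ?_⟩
  have := hb b m h1 h2
  simpa using this

/-- **No complete problem**, even for the problems with unique solutions which depend only on the
length of the instance, and for Turing reductions in all small time bounds. -/
theorem exists_no_complete_unique (htr : Loc tr) (hn : ∀ n, ℓ n ≤ n) (hm : Monotone ℓ)
    (hg : ∀ C : ℕ, ∃ n0, ∀ n, n0 ≤ n → n ^ C < 2 ^ ℓ n) :
    ∃ O : Orc, Legal ℓ tr O ∧ ∀ (T : TFNP O) (κ : ℕ), ∃ S : TFNP O,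
      (∀ x, ∃! y, S.IsSol x y) ∧
      (∀ x x' y, x.length = x'.length → (S.IsSol x y ↔ S.IsSol x' y)) ∧
      ¬ S.Reduces T ∧ ¬ TuringRed S T ∧
      ∀ t : ℕ → ℕ,
        (∀ P : Polynomial ℕ, ∃ b0, ∀ b, b0 ≤ b → P.eval (t b) < 2 ^ ℓ (b ^ (κ + 1))) →
        ¬ S.ReducesWithin t T ∧ ¬ TuringWithin t S T := by
  obtain ⟨O, hO, h⟩ := exists_no_turing_complete_unique (ℓ := ℓ) htr hn
  refine ⟨O, hO, fun T κ => ?_⟩
  obtain ⟨S, hS1, hS2, hS⟩ := h T κ
  refine ⟨S, hS1, hS2, fun hr => ?_, fun hr => ?_, fun t ht => ?_⟩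
  · obtain ⟨C, hC⟩ := within_of_reduces hr
    exact hS _ (small_lin (small_poly hm hg κ C)) (turingWithin_of_reducesWithin hC)
  · obtain ⟨C, hC⟩ := turingWithin_of_turingRed hr
    exact hS _ (small_poly hm hg κ C) hC
  · have ht' : Small ℓ κ t := by
      intro P
      obtain ⟨b0, hb0⟩ := ht P
      exact ⟨b0, fun b m hb hbm =>
        (hb0 b hb).trans_le (Nat.pow_le_pow_right (by norm_num) (hm hbm))⟩
    exact ⟨fun hr => hS _ (small_lin ht') (turingWithin_of_reducesWithin hr), hS t ht'⟩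

end Pool.Agent.H43.EW
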