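import Pool.Agent.H65.EW.TLim
import Pool.Agent.H40.EW.USrch
import Pool.Agent.H43.EW.UTDiag

set_option autoImplicit false

/-! # The limit, for Turing reductions, with unique elements -/

namespace Pool.Agent.H43.EW

open Pool.Agent.H88.RO Tr Classical
open Pool.Agent.H65.EW hiding TKill TKill.mono exists_tkill TMet exists_tstep exists_tseq
  exists_toracle
open Pool.Agent.H45.EW hiding Sat Cnd Dead Alive Kill exists_fill exists_free exists_decide
  exists_raise exists_cnd getElem?_of_prefix exists_kill Met exists_step le_chain exists_seq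
  exists_oracle
open Pool.Agent.H40.EW hiding Kill

variable {ℓ : ℕ → ℕ} {tr : Orc → List Bool → Prop}

/-- the requirement `t` is met at `q`, an extension of `p` -/
def TMet (p : Cnd ℓ tr) (q : Cnd ℓ tr) : TTask → Prop
  | Sum.inl (e, κ) => Dead e q ∨ ∃ j, Alive e κ j q
  | Sum.inr (e, κ, j, c, N) => Alive e κ j p → TKill ℓ e κ j c N q

theorem exists_tstep (htr : Loc tr) (hℓ : ∀ n, ℓ n ≤ n) (p : Cnd ℓ tr) (t : TTask) (m : ℕ) :
    ∃ q : Cnd ℓ tr, p.Le q ∧ m ≤ q.m ∧ TMet p q t := by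
  rcases t with ⟨e, κ⟩ | ⟨e, κ, j, c, N⟩
  · obtain ⟨q, hq, h⟩ := exists_decide htr e κ p
    obtain ⟨r, hr, hm⟩ := exists_raise q m
    refine ⟨r, hq.trans hr, hm, ?_⟩
    rcases h with h | ⟨j, h⟩
    · exact Or.inl (h.mono hr)
    · exact Or.inr ⟨j, h.mono hr⟩
  · by_cases ha : Alive e κ j p
    · obtain ⟨q, hq, h⟩ := exists_tkill htr hℓ ha c N
      obtain ⟨r, hr, hm⟩ := exists_raise q m
      exact ⟨r, hq.trans hr, hm, fun _ => h.mono hr⟩
    · obtain ⟨r, hr, hm⟩ := exists_raise p m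
      exact ⟨r, hr, hm, fun h => absurd h ha⟩

/-- a sequence of conditions which meets all requirements -/
theorem exists_tseq (htr : Loc tr) (hℓ : ∀ n, ℓ n ≤ n) : ∃ p : ℕ → Cnd ℓ tr,
    (∀ k, (p k).Le (p (k + 1))) ∧ (∀ k, k ≤ (p k).m) ∧
    (∀ e κ, ∃ k, Dead e (p k) ∨ ∃ j, Alive e κ j (p k)) ∧
    ∀ e κ j k, Alive e κ j (p k) → ∀ c N, ∃ k', TKill ℓ e κ j c N (p k') := by
  obtain ⟨ν, hν⟩ := exists_tenum
  choose st h1 h2 h3 using fun (p : Cnd ℓ tr) (t : TTask) (m : ℕ) => exists_tstep htr hℓ p t m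
  obtain ⟨p0, -⟩ := exists_cnd (ℓ := ℓ) htr
  let p : ℕ → Cnd ℓ tr := fun k => Nat.rec p0 (fun k q => st q (ν k) (k + 1)) k
  have hp : ∀ k, p (k + 1) = st (p k) (ν k) (k + 1) := fun _ => rfl
  have hle : ∀ k, (p k).Le (p (k + 1)) := fun k => by rw [hp]; exact h1 _ _ _
  refine ⟨p, hle, ?_, ?_, ?_⟩
  · intro k
    cases k with
    | zero => exact Nat.zero_le _
    | succ k => rw [hp]; exact h2 _ _ _
  · intro e κ
    obtain ⟨k, -, hk⟩ := hν (Sum.inl (e, κ)) 0
    refine ⟨k + 1, ?_⟩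
    have := h3 (p k) (ν k) (k + 1)
    rw [← hp, hk] at this
    exact this
  · intro e κ j k ha c N
    obtain ⟨k', hkk, hk⟩ := hν (Sum.inr (e, κ, j, c, N)) k
    refine ⟨k' + 1, ?_⟩
    have := h3 (p k') (ν k') (k' + 1)
    rw [← hp, hk] at this
    exact this (ha.mono (le_chain hle hkk))

/-- the oracle -/
theorem exists_toracle (htr : Loc tr) (hℓ : ∀ n, ℓ n ≤ n) : ∃ O : Orc, Legal ℓ tr O ∧
    ∀ e, Tot e O → ∀ κ, ∃ j β, Sat O j (κ, β) ∧ ∀ c N, ∃ b, N ≤ b ∧
      ∀ T, (∀ m, b ^ (κ + 1) ≤ m → (TPol e c).eval T < 2 ^ ℓ m) →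
        ¬ TRedAt O e κ j c T b := by
  obtain ⟨p, hle, hm, hdec, hkill⟩ := exists_tseq (ℓ := ℓ) htr hℓ
  let O : Orc := fun s => (p (s.length + 1)).O s
  have hO : ∀ k, Ag (p k).m (p k).O O := by
    intro k s hs
    show (p (s.length + 1)).O s = (p k).O s
    rcases Nat.le_total k (s.length + 1) with h | h
    · exact (le_chain hle h).ag s hs
    · exact ((le_chain hle h).ag s (lt_of_lt_of_le (Nat.lt_succ_self _) (hm _))).symm
  refine ⟨O, ?_, ?_⟩
  · intro q w hw
    have hk := hm (2 * ℓ q.length + q.length + 4)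
    have hA := hO (2 * ℓ q.length + q.length + 4)
    have hl : w.length = ℓ q.length := hw.1
    have hp : Pass ℓ (p (2 * ℓ q.length + q.length + 4)).O q.length w := by
      refine ⟨hl, ?_⟩
      rcases hw.2 with h1 | ⟨h1, h2⟩
      · left
        rw [← hA _ (by rw [pw_length]; omega)]
        exact h1
      · right
        refine ⟨h1, fun w' hw' => ?_⟩
        rw [← hA _ (by rw [pw_length]; omega)]
        exact h2 w' hw'
    have h3 := (p (2 * ℓ q.length + q.length + 4)).leg q w hp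
    rw [hA _ (by rw [cd_length]; omega), h3]
    exact (htr _ _ _ (fun s hs => hA _ (by omega))).symm
  · intro e ht κ
    obtain ⟨k, hd | ⟨j, ha⟩⟩ := hdec e κ
    · exfalso
      obtain ⟨x, hx⟩ := hd
      obtain ⟨y, hy⟩ := ht x
      exact hx O (hO k) y hy
    · have ha' := ha
      obtain ⟨β, m0, -, -, hA, -⟩ := ha'
      refine ⟨j, β, ?_, fun c N => ?_⟩
      · intro b hb
        set k' := max k (j + b + b ^ (κ + 1) + 4) with hk'
        have hkk : k ≤ k' := le_max_left _ _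
        have hm' : j + b + b ^ (κ + 1) + 4 ≤ (p k').m := (le_max_right _ _).trans (hm k')
        have hA' : (p k').A[j]? = some (κ, β) := by
          obtain ⟨t, ht⟩ := (le_chain hle hkk).A
          rw [← ht, List.getElem?_append_left]
          · exact hA
          · by_contra hc
            rw [List.getElem?_eq_none (by omega)] at hA
            cases hA
        obtain ⟨z, ⟨hz, h1⟩, h2⟩ := (p k').sat j (κ, β) hA' b hb
        refine ⟨z, ⟨hz, ?_⟩, fun y hy => h2 y ⟨hy.1, ?_⟩⟩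
        · rw [hO k' _ (by rw [rg_length, hz]; show j + b + b ^ (κ + 1) + 3 < _; omega)]
          exact h1
        · rw [← hO k' _ (by rw [rg_length, hy.1]; show j + b + b ^ (κ + 1) + 3 < _; omega)]
          exact hy.2
      · obtain ⟨k', b, hb, h⟩ := hkill e κ j k ha c N
        exact ⟨b, hb, fun T hT => h T hT O (hO k')⟩

/-- **No complete problem, under Turing reductions**, not even for problems with unique
solutions which depend only on the length of the instance. -/
theorem exists_no_turing_complete_unique (htr : Loc tr) (hℓ : ∀ n, ℓ n ≤ n) :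
    ∃ O : Orc, Legal ℓ tr O ∧ ∀ (T : TFNP O) (κ : ℕ), ∃ S : TFNP O,
      (∀ x, ∃! y, S.IsSol x y) ∧
      (∀ x x' y, x.length = x'.length → (S.IsSol x y ↔ S.IsSol x' y)) ∧
        ∀ t, Small ℓ κ t → ¬ TuringWithin t S T := by
  obtain ⟨O, hO, hk⟩ := exists_toracle (ℓ := ℓ) htr hℓ
  refine ⟨O, hO, fun T κ => ?_⟩
  obtain ⟨e, he⟩ := exists_pre T
  have htot : Tot e O := fun x => by
    obtain ⟨y, hy⟩ := T.total x
    exact ⟨y, (he x y).1 hy⟩
  obtain ⟨j, β, hsat, hkill⟩ := hk e htot κ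
  have hr : ∀ b, (Polynomial.X ^ (κ + 1) : Polynomial ℕ).eval b = b ^ (κ + 1) := fun b => by simp
  have h : ∀ b, β ≤ b → ∃! z : List Bool,
      z.length = (Polynomial.X ^ (κ + 1) : Polynomial ℕ).eval b ∧ O (rg j b z) = true := by
    intro b hb
    rw [hr]
    exact hsat b hb
  have hsol : (fun s y => T.IsSol s y) = Sol e O := by
    funext s y
    exact propext (he s y)
  refine ⟨SJ1 O j β (Polynomial.X ^ (κ + 1)) h, SJ1_unique h,
    fun x x' y hx => SJ1_length h hx, fun t ht => ?_⟩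
  rintro ⟨c, hred⟩
  obtain ⟨b0, hb0⟩ := ht (TPol e c)
  obtain ⟨b, hb, hno⟩ := hkill c (max β b0)
  refine hno (t b) (fun m hm => hb0 b m ((le_max_right _ _).trans hb) hm) ?_
  intro g hg
  have hg' : Hst O T.IsSol c (List.replicate b true) g := by
    have e1 : T.IsSol = Sol e O := hsol
    rw [e1]
    exact hg
  rcases hred (List.replicate b true) g hg' with ⟨w, ⟨u, hu, h1⟩, h2⟩ | ⟨hl, s, u, hu, h1⟩
  · rw [List.length_replicate] at hu
    have h5 := SJ1_sol h (by rw [List.length_replicate]; exact (le_max_left _ _).trans hb) h2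
    rw [List.length_replicate, hr] at h5
    exact Or.inl ⟨w, ⟨u, hu, h1⟩, h5.1, h5.2⟩
  · rw [List.length_replicate] at hl hu
    exact Or.inr ⟨hl, s, u, hu, h1⟩


end Pool.Agent.H43.EW
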